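import Pool.Agent.Lib_helper51.TM32.NDefs

/-!
TM32, phase 2, block N1b (helper99): elements of prime power norm in `ℤ[√-2]`.
-/

set_option autoImplicit false

namespace Pool.Agent.TM32

open Zsqrtd

namespace N1b99

theorem mem_SN' {n : ℕ} {x : Zs} : x ∈ SN n ↔ x.norm = n := by
  unfold SN
  rw [Finset.mem_filter, Finset.mem_map]
  constructor
  · exact fun h => h.2
  · intro h
    refine ⟨⟨(x.re, x.im), ?_, rfl⟩, h⟩
    rw [nv] at h
    have h0 : (0 : ℤ) ≤ n := Int.natCast_nonneg n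
    rw [Finset.mem_product, Finset.mem_Icc, Finset.mem_Icc]
    have h1 : x.re ^ 2 ≤ n := by nlinarith [sq_nonneg x.im]
    have h2 : x.im ^ 2 ≤ n := by nlinarith [sq_nonneg x.re, sq_nonneg x.im]
    have key : ∀ a : ℤ, a ^ 2 ≤ n → -(n : ℤ) ≤ a ∧ a ≤ n := by
      intro a ha
      constructor <;> nlinarith [sq_nonneg (a - 1), sq_nonneg (a + 1)]
    exact ⟨key _ h1, key _ h2⟩

/-- summing over a set described up to sign -/
theorem sum_pm (S : Finset Zs) (n : ℕ) (g : ℕ → Zs) (hg0 : ∀ j, j < n → g j ≠ 0)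
    (hS : ∀ x, x ∈ S ↔ ∃ j, j < n ∧ (x = g j ∨ x = -g j))
    (hinj : ∀ i j, i < n → j < n → (g i = g j ∨ g i = -g j) → i = j)
    (f : Zs → ℂ) (hf : ∀ x, f (-x) = f x) :
    ∑ x ∈ S, f x = 2 * ∑ j ∈ Finset.range n, f (g j) := by
  classical
  have h1 : S = (Finset.range n).image g ∪ (Finset.range n).image (fun j => -g j) := by
    ext x
    rw [hS, Finset.mem_union, Finset.mem_image, Finset.mem_image]
    constructor
    · rintro ⟨j, hj, h | h⟩
      · exact Or.inl ⟨j, Finset.mem_range.2 hj, h.symm⟩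
      · exact Or.inr ⟨j, Finset.mem_range.2 hj, h.symm⟩
    · rintro (⟨j, hj, h⟩ | ⟨j, hj, h⟩)
      · exact ⟨j, Finset.mem_range.1 hj, Or.inl h.symm⟩
      · exact ⟨j, Finset.mem_range.1 hj, Or.inr h.symm⟩
  have hdis : Disjoint ((Finset.range n).image g) ((Finset.range n).image (fun j => -g j)) := by
    rw [Finset.disjoint_left]
    intro x hx hx'
    rw [Finset.mem_image] at hx hx'
    obtain ⟨i, hi, rfl⟩ := hx
    obtain ⟨j, hj, h⟩ := hx'
    rw [Finset.mem_range] at hi hj
    have hij := hinj i j hi hj (Or.inr h.symm)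
    subst hij
    have h2 : (2 : ℤ) * (g i).re = 0 := by
      have := congrArg Zsqrtd.re h
      rw [Zsqrtd.re_neg] at this
      omega
    have h3 : (2 : ℤ) * (g i).im = 0 := by
      have := congrArg Zsqrtd.im h
      rw [Zsqrtd.im_neg] at this
      omega
    apply hg0 i hi
    ext
    · simpa using h2
    · simpa using h3
  rw [h1, Finset.sum_union hdis, Finset.sum_image, Finset.sum_image]
  · simp only [hf]
    ring
  · intro i hi j hj h
    rw [Finset.mem_coe, Finset.mem_range] at hi hj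
    exact hinj i j hi hj (Or.inl (neg_injective h))
  · intro i hi j hj h
    rw [Finset.mem_coe, Finset.mem_range] at hi hj
    exact hinj i j hi hj (Or.inl h)

theorem norm_one_iff {x : Zs} (h : x.norm = 1) : x = 1 ∨ x = -1 := by
  rw [nv] at h
  have h1 : x.im = 0 := by
    have : x.im ^ 2 < 1 := by nlinarith [sq_nonneg x.re]
    nlinarith [sq_nonneg x.im, sq_nonneg (x.im - 1), sq_nonneg (x.im + 1)]
  have h2 : x.re ^ 2 = 1 := by rw [h1] at h; linarith
  have h3 : (x.re - 1) * (x.re + 1) = 0 := by linarith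
  rcases mul_eq_zero.1 h3 with h4 | h4
  · left
    ext
    · rw [Zsqrtd.re_one]; omega
    · rw [h1, Zsqrtd.im_one]
  · right
    ext
    · rw [Zsqrtd.re_neg, Zsqrtd.re_one]; omega
    · rw [Zsqrtd.im_neg, h1, Zsqrtd.im_one]; rfl

theorem isUnit_of_norm_one {x : Zs} (h : x.norm = 1) : IsUnit x := by
  rcases norm_one_iff h with rfl | rfl
  · exact isUnit_one
  · exact isUnit_one.neg

theorem norm_eq_one_of_isUnit {x : Zs} (h : IsUnit x) : x.norm = 1 := by
  obtain ⟨y, hy⟩ := h.exists_right_inv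
  have h1 : x.norm * y.norm = 1 := by rw [← Zsqrtd.norm_mul, hy, Zsqrtd.norm_one]
  exact Int.eq_one_of_mul_eq_one_right (nn x) h1

theorem prime_of_norm {x : Zs} {p : ℕ} (hp : p.Prime) (h : x.norm = p) : Prime x := by
  have hirr : Irreducible x := by
    refine ⟨?_, ?_⟩
    · intro hu
      have := norm_eq_one_of_isUnit hu
      rw [h] at this
      have h1 := hp.one_lt
      omega
    · intro a b hab
      have h1 : a.norm * b.norm = p := by rw [← Zsqrtd.norm_mul, ← hab, h]
      have h2 : (a.norm.natAbs) * (b.norm.natAbs) = p := by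
        rw [← Int.natAbs_mul, h1]; rfl
      have ha := nn a
      have hb := nn b
      rcases (Nat.prime_mul_iff.1 (h2 ▸ hp)) with ⟨_, h3⟩ | ⟨_, h3⟩
      · right
        exact isUnit_of_norm_one (by omega)
      · left
        exact isUnit_of_norm_one (by omega)
  exact hirr.prime

/-- a prime of `ℤ[√-2]` above `p = 1, 3 mod 8` -/
theorem exists_norm_p {p : ℕ} (hp : p.Prime) (h : p % 8 = 1 ∨ p % 8 = 3) :
    ∃ r : Zs, r.norm = p := by
  have _hpf : Fact p.Prime := ⟨hp⟩
  have hp2 : p ≠ 2 := by rintro rfl; omega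
  obtain ⟨c, hc⟩ := (ZMod.exists_sq_eq_neg_two_iff hp2).2 h
  obtain ⟨u, rfl⟩ := ZMod.intCast_surjective c
  have hd : (p : ℤ) ∣ u * u + 2 := by
    rw [← ZMod.intCast_zmod_eq_zero_iff_dvd]
    push_cast
    rw [← hc]; ring
  obtain ⟨v, hv⟩ := hd
  have hpn : ((p : ℤ) : Zs).norm = (p : ℤ) * p := by rw [Zsqrtd.norm_intCast]
  have hnp : ¬ Prime ((p : ℤ) : Zs) := by
    intro hpr
    have h1 : ((p : ℤ) : Zs) ∣ (⟨u, 1⟩ : Zs) * ⟨u, -1⟩ := by
      refine ⟨((v : ℤ) : Zs), ?_⟩
      have : (⟨u, 1⟩ : Zs) * ⟨u, -1⟩ = ((u * u + 2 : ℤ) : Zs) := by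
        ext
        · rw [Zsqrtd.re_mul, Zsqrtd.re_intCast]; ring
        · rw [Zsqrtd.im_mul, Zsqrtd.im_intCast]; ring
      rw [this, hv]
      push_cast
      rfl
    have hone : ∀ w : ℤ, w = 1 ∨ w = -1 → ¬ ((p : ℤ) : Zs) ∣ (⟨u, w⟩ : Zs) := by
      rintro w hw ⟨z, hz⟩
      have h2 := congrArg Zsqrtd.im hz
      rw [Zsqrtd.im_mul, Zsqrtd.re_intCast, Zsqrtd.im_intCast] at h2
      have h3 : (p : ℤ) ∣ w := ⟨z.im, by rw [zero_mul, add_zero] at h2; exact h2⟩
      have h4 : (p : ℤ) ∣ 1 := by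
        rcases hw with rfl | rfl
        · exact h3
        · exact (dvd_neg.1 h3)
      have h5 := Int.le_of_dvd one_pos h4
      have h6 := hp.one_lt
      omega
    rcases hpr.dvd_or_dvd h1 with h2 | h2
    · exact hone 1 (Or.inl rfl) h2
    · exact hone (-1) (Or.inr rfl) h2
  have hnirr : ¬ Irreducible ((p : ℤ) : Zs) := fun hi => hnp hi.prime
  have hnu : ¬ IsUnit ((p : ℤ) : Zs) := by
    intro hu
    have h1 := norm_eq_one_of_isUnit hu
    rw [hpn] at h1
    have h6 : (2 : ℤ) ≤ p := by exact_mod_cast hp.two_le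
    nlinarith
  have hex : ∃ a b : Zs, ((p : ℤ) : Zs) = a * b ∧ ¬ IsUnit a ∧ ¬ IsUnit b := by
    by_contra hcon
    apply hnirr
    refine ⟨hnu, ?_⟩
    intro a b hab
    by_contra h3
    push Not at h3
    exact hcon ⟨a, b, hab, h3.1, h3.2⟩
  obtain ⟨a, b, hab, ha, hb⟩ := hex
  refine ⟨a, ?_⟩
  have h1 : a.norm * b.norm = (p : ℤ) * p := by rw [← Zsqrtd.norm_mul, ← hab, hpn]
  have h2 : a.norm.natAbs * b.norm.natAbs = p * p := by
    rw [← Int.natAbs_mul, h1, Int.natAbs_mul]; rfl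
  have ha1 : a.norm ≠ 1 := fun h => ha (isUnit_of_norm_one h)
  have hb1 : b.norm ≠ 1 := fun h => hb (isUnit_of_norm_one h)
  have ha0 := nn a
  have hb0 := nn b
  have h3 : a.norm.natAbs ∣ p ^ 2 := ⟨b.norm.natAbs, by rw [h2]; ring⟩
  obtain ⟨i, hi, hi2⟩ := (Nat.dvd_prime_pow hp).1 h3
  have h4 : b.norm.natAbs ∣ p ^ 2 := ⟨a.norm.natAbs, by rw [mul_comm, h2]; ring⟩
  obtain ⟨j, hj, hj2⟩ := (Nat.dvd_prime_pow hp).1 h4
  have hi0 : i ≠ 0 := by
    rintro rfl
    rw [pow_zero] at hi2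
    omega
  have hj0 : j ≠ 0 := by
    rintro rfl
    rw [pow_zero] at hj2
    omega
  have hij : i + j = 2 := by
    rw [hi2, hj2, ← pow_add, ← pow_two] at h2
    exact Nat.pow_right_injective hp.two_le h2
  have hi1 : i = 1 := by omega
  rw [hi1, pow_one] at hi2
  omega

theorem norm_star (x : Zs) : (star x).norm = x.norm := Zsqrtd.norm_conj x

theorem norm_pow_zs (x : Zs) (k : ℕ) : (x ^ k).norm = x.norm ^ k := by
  induction k with
  | zero => rw [pow_zero, pow_zero, Zsqrtd.norm_one]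
  | succ k ih => rw [pow_succ, Zsqrtd.norm_mul, ih, pow_succ]

theorem norm_ne_zero {x : Zs} (h : x.norm ≠ 0) : x ≠ 0 := fun h0 => h (n_eq_zero.2 h0)

/-- every element of norm `p ^ k` is `± r ^ j * star r ^ (k - j)` -/
theorem form_split {p : ℕ} (hp : p.Prime) {r : Zs} (hr : r.norm = p) (k : ℕ) :
    ∀ x : Zs, x.norm = (p : ℤ) ^ k →
      ∃ j, j < k + 1 ∧ (x = r ^ j * star r ^ (k - j) ∨ x = -(r ^ j * star r ^ (k - j))) := by
  have hpr := prime_of_norm hp hr
  have hp0 : (p : ℤ) ≠ 0 := by exact_mod_cast hp.ne_zero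
  have hdvd : ∀ a b : Zs, r ∣ a * b → r ∣ a ∨ r ∣ b := fun a b h => hpr.dvd_or_dvd h
  induction k with
  | zero =>
    intro x hx
    rw [pow_zero] at hx
    refine ⟨0, by norm_num, ?_⟩
    simpa using norm_one_iff hx
  | succ k ih =>
    intro x hx
    have h1 : r ∣ x * star x := by
      rw [← Zsqrtd.norm_eq_mul_conj, hx, pow_succ, ← hr]
      push_cast
      rw [Zsqrtd.norm_eq_mul_conj r]
      exact (Dvd.intro _ rfl).mul_left _
    rcases hdvd _ _ h1 with h2 | h2
    · obtain ⟨y, rfl⟩ := h2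
      rw [Zsqrtd.norm_mul, hr, pow_succ, mul_comm] at hx
      have hy := mul_right_cancel₀ hp0 hx
      obtain ⟨j, hj, h3⟩ := ih y hy
      refine ⟨j + 1, by omega, ?_⟩
      have e : k + 1 - (j + 1) = k - j := by omega
      rw [e]
      rcases h3 with h3 | h3
      · left
        rw [h3]; ring
      · right
        rw [h3]; ring
    · obtain ⟨y, hy0⟩ := h2
      have hxy : x = star r * star y := by
        have := congrArg star hy0
        rw [star_star, star_mul'] at this
        exact this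
      rw [hxy, Zsqrtd.norm_mul, norm_star, norm_star, hr, pow_succ, mul_comm] at hx
      have hy := mul_right_cancel₀ hp0 hx
      obtain ⟨j, hj, h3⟩ := ih (star y) (by rw [norm_star]; exact hy)
      refine ⟨j, by omega, ?_⟩
      have e : k + 1 - j = (k - j) + 1 := by omega
      rw [e, hxy]
      rcases h3 with h3 | h3
      · left
        rw [h3]; ring
      · right
        rw [h3]; ring

/-- distinctness up to sign -/
theorem inj_split {p : ℕ} (hp : p.Prime) {r : Zs} (hr : r.norm = p) (hp2 : p ≠ 2) (k : ℕ) :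
    ∀ i j, i < k + 1 → j < k + 1 →
      (r ^ i * star r ^ (k - i) = r ^ j * star r ^ (k - j) ∨
        r ^ i * star r ^ (k - i) = -(r ^ j * star r ^ (k - j))) → i = j := by
  have hpr := prime_of_norm hp hr
  have hr0 := hpr.ne_zero
  have hnd : ¬ r ∣ star r := by
    rintro ⟨y, hy⟩
    have h1 : (p : ℤ) * y.norm = p := by
      rw [← hr, ← Zsqrtd.norm_mul, ← hy, norm_star]
    have hp0 : (p : ℤ) ≠ 0 := by exact_mod_cast hp.ne_zero
    have h2 : y.norm = 1 := mul_left_cancel₀ hp0 (by rw [h1, mul_one])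
    rw [nv] at hr
    have hno1 : r.im ≠ 0 := by
      intro h0
      rw [h0] at hr
      have h3 : r.re.natAbs * r.re.natAbs = p := by
        have : r.re * r.re = p := by linarith [hr]
        rw [← Int.natAbs_mul, this]; rfl
      rcases (Nat.prime_mul_iff.1 (h3 ▸ hp)) with ⟨h4, h5⟩ | ⟨h4, h5⟩
      · rw [h5] at h4; exact Nat.not_prime_one h4
      · rw [h5] at h4; exact Nat.not_prime_one h4
    have hno2 : r.re ≠ 0 := by
      intro h0
      rw [h0] at hr
      have h3 : (2 : ℤ) ∣ p := ⟨r.im ^ 2, by linarith [hr]⟩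
      have h4 : 2 ∣ p := by exact_mod_cast h3
      exact hp2 ((Nat.prime_dvd_prime_iff_eq Nat.prime_two hp).1 h4).symm
    rcases norm_one_iff h2 with rfl | rfl
    · rw [mul_one] at hy
      have h3 := congrArg Zsqrtd.im hy
      rw [Zsqrtd.im_star] at h3
      apply hno1; omega
    · rw [mul_neg, mul_one] at hy
      have h3 := congrArg Zsqrtd.re hy
      rw [Zsqrtd.re_star, Zsqrtd.re_neg] at h3
      apply hno2; omega
  have hs0 : star r ≠ 0 := by
    intro h
    apply hr0
    have := congrArg star h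
    rwa [star_star, star_zero] at this
  have key : ∀ i j, i < j → j < k + 1 →
      ¬ (r ^ i * star r ^ (k - i) = r ^ j * star r ^ (k - j) ∨
        r ^ i * star r ^ (k - i) = -(r ^ j * star r ^ (k - j))) := by
    intro i j hij hj h
    have h1 : r ^ j ∣ r ^ i * star r ^ (k - i) := by
      rcases h with h | h
      · rw [h]; exact Dvd.intro _ rfl
      · rw [h]; exact (dvd_neg.2 (Dvd.intro _ rfl))
    have h2 : r ^ (i + 1) ∣ r ^ i * star r ^ (k - i) := (pow_dvd_pow r hij).trans h1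
    rw [pow_succ] at h2
    have h3 := (mul_dvd_mul_iff_left (pow_ne_zero i hr0)).1 h2
    exact hnd (hpr.dvd_of_dvd_pow h3)
  intro i j hi hj h
  rcases lt_trichotomy i j with hij | hij | hij
  · exact absurd h (key i j hij hj)
  · exact hij
  · exfalso
    apply key j i hij hi
    rcases h with h | h
    · exact Or.inl h.symm
    · right
      rw [h, neg_neg]

end N1b99

open N1b99

theorem SN_split {p : ℕ} (hp : p.Prime) (h : p % 8 = 1 ∨ p % 8 = 3) :
    ∃ ρ : Zs, ρ.norm = p ∧ ∀ (k : ℕ) (f : Zs → ℂ), (∀ x, f (-x) = f x) →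
      ∑ x ∈ SN (p ^ k), f x = 2 * ∑ j ∈ Finset.range (k + 1), f (ρ ^ j * star ρ ^ (k - j)) := by
  obtain ⟨r, hr⟩ := exists_norm_p hp h
  have hp2 : p ≠ 2 := by rintro rfl; omega
  have hp0 : (p : ℤ) ≠ 0 := by exact_mod_cast hp.ne_zero
  refine ⟨r, hr, ?_⟩
  intro k f hf
  have hn : ∀ j, j < k + 1 → (r ^ j * star r ^ (k - j)).norm = (p : ℤ) ^ k := by
    intro j hj
    rw [Zsqrtd.norm_mul, norm_pow_zs, norm_pow_zs, norm_star, hr, ← pow_add]
    congr 1
    omega
  refine sum_pm _ (k + 1) (fun j => r ^ j * star r ^ (k - j)) ?_ ?_ (inj_split hp hr hp2 k) f hf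
  · intro j hj
    apply norm_ne_zero
    rw [hn j hj]
    exact pow_ne_zero _ hp0
  · intro x
    rw [mem_SN']
    push_cast
    constructor
    · intro hx
      exact form_split hp hr k x hx
    · rintro ⟨j, hj, h1 | h1⟩
      · rw [h1, hn j hj]
      · rw [h1, Zsqrtd.norm_neg, hn j hj]

theorem SN_inert {p : ℕ} (hp : p.Prime) (h : p % 8 = 5 ∨ p % 8 = 7) (k : ℕ) (f : Zs → ℂ)
    (hf : ∀ x, f (-x) = f x) :
    ∑ x ∈ SN (p ^ k), f x = if Even k then 2 * f (((p ^ (k / 2) : ℕ)) : Zs) else 0 := by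
  have _hpf : Fact p.Prime := ⟨hp⟩
  have hp2 : p ≠ 2 := by rintro rfl; omega
  have hp0 : (p : ℤ) ≠ 0 := by exact_mod_cast hp.ne_zero
  have hpp : Prime (p : ℤ) := Nat.prime_iff_prime_int.1 hp
  -- `p ∣ N x` forces `p ∣ x`
  have hdiv : ∀ x : Zs, (p : ℤ) ∣ x.norm → ∃ y : Zs, x = ((p : ℤ) : Zs) * y := by
    intro x hx
    rw [nv] at hx
    have him : (p : ℤ) ∣ x.im := by
      by_contra hni
      have hb : ((x.im : ℤ) : ZMod p) ≠ 0 := by
        intro h0
        exact hni ((ZMod.intCast_zmod_eq_zero_iff_dvd _ _).1 h0)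
      have h1 : ((x.re ^ 2 + 2 * x.im ^ 2 : ℤ) : ZMod p) = 0 :=
        (ZMod.intCast_zmod_eq_zero_iff_dvd _ _).2 hx
      have h2 : IsSquare (-2 : ZMod p) := by
        refine ⟨(x.re : ZMod p) / (x.im : ZMod p), ?_⟩
        push_cast at h1
        field_simp
        linear_combination -h1
      rcases (ZMod.exists_sq_eq_neg_two_iff hp2).1 h2 with h3 | h3 <;> omega
    have hre : (p : ℤ) ∣ x.re := by
      have h1 : (p : ℤ) ∣ 2 * x.im ^ 2 := (him.trans (dvd_pow_self _ two_ne_zero)).mul_left _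
      have h2 : (p : ℤ) ∣ x.re ^ 2 := (dvd_add_left h1).1 hx
      exact hpp.dvd_of_dvd_pow h2
    obtain ⟨a, ha⟩ := hre
    obtain ⟨b, hb⟩ := him
    refine ⟨⟨a, b⟩, ?_⟩
    ext
    · rw [Zsqrtd.re_mul, Zsqrtd.re_intCast, Zsqrtd.im_intCast, ha]; ring
    · rw [Zsqrtd.im_mul, Zsqrtd.re_intCast, Zsqrtd.im_intCast, hb]; ring
  have hnp : ∀ y : Zs, (((p : ℤ) : Zs) * y).norm = (p : ℤ) ^ 2 * y.norm := by
    intro y
    rw [Zsqrtd.norm_mul, Zsqrtd.norm_intCast]; ring
  have form : ∀ n : ℕ, ∀ x : Zs, x.norm = (p : ℤ) ^ n →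
      Even n ∧ (x = (((p ^ (n / 2) : ℕ)) : Zs) ∨ x = -(((p ^ (n / 2) : ℕ)) : Zs)) := by
    intro n
    induction n using Nat.strong_induction_on with
    | _ n ih =>
      intro x hx
      match n, ih, hx with
      | 0, _, hx =>
        rw [pow_zero] at hx
        refine ⟨Even.zero, ?_⟩
        have := norm_one_iff hx
        simpa using this
      | 1, _, hx =>
        exfalso
        rw [pow_one] at hx
        obtain ⟨y, rfl⟩ := hdiv x (by rw [hx])
        rw [hnp] at hx
        have h1 : (p : ℤ) * ((p : ℤ) * y.norm) = p * 1 := by linear_combination hx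
        have h2 := mul_left_cancel₀ hp0 h1
        have h3 : (p : ℤ) ∣ 1 := ⟨_, h2.symm⟩
        have h4 := Int.le_of_dvd one_pos h3
        have h5 := hp.one_lt
        omega
      | (m + 2), ih, hx =>
        obtain ⟨y, rfl⟩ := hdiv x (by rw [hx]; exact dvd_pow_self _ (by omega))
        rw [hnp, pow_add, mul_comm ((p : ℤ) ^ m)] at hx
        have hy := mul_left_cancel₀ (pow_ne_zero 2 hp0) hx
        obtain ⟨h1, h2⟩ := ih m (by omega) y hy
        refine ⟨h1.add (by decide), ?_⟩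
        have e : (m + 2) / 2 = m / 2 + 1 := by omega
        rw [e]
        rcases h2 with h2 | h2
        · left
          rw [h2]; push_cast; ring
        · right
          rw [h2]; push_cast; ring
  by_cases hk : Even k
  · rw [if_pos hk]
    have hnk : ((((p ^ (k / 2) : ℕ)) : Zs)).norm = (p : ℤ) ^ k := by
      obtain ⟨m, rfl⟩ := hk
      have e : (m + m) / 2 = m := by omega
      rw [e, Zsqrtd.norm_natCast]
      push_cast
      ring
    have := sum_pm (SN (p ^ k)) 1 (fun _ => (((p ^ (k / 2) : ℕ)) : Zs)) ?_ ?_ ?_ f hf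
    · rw [this, Finset.sum_range_one]
    · intro j hj
      apply norm_ne_zero
      rw [hnk]
      exact pow_ne_zero _ hp0
    · intro x
      rw [mem_SN']
      push_cast
      constructor
      · intro hx
        have := (form k x hx).2
        refine ⟨0, one_pos, ?_⟩
        push_cast at this
        exact this
      · rintro ⟨j, hj, h1 | h1⟩
        · rw [h1]
          push_cast at hnk
          rw [hnk]
        · rw [h1, Zsqrtd.norm_neg]
          push_cast at hnk
          rw [hnk]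
    · intro i j hi hj _
      omega
  · rw [if_neg hk]
    apply Finset.sum_eq_zero
    intro x hx
    rw [mem_SN'] at hx
    push_cast at hx
    exact absurd (form k x hx).1 hk

theorem SN_two (k : ℕ) (f : Zs → ℂ) (hf : ∀ x, f (-x) = f x) :
    ∑ x ∈ SN (2 ^ k), f x = 2 * f (sq ^ k) := by
  have hs : (sq : Zs).norm = 2 := by rw [nv]; norm_num
  have form : ∀ k : ℕ, ∀ x : Zs, x.norm = (2 : ℤ) ^ k → x = sq ^ k ∨ x = -(sq ^ k) := by
    intro k
    induction k with
    | zero =>
      intro x hx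
      rw [pow_zero] at hx ⊢
      exact norm_one_iff hx
    | succ k ih =>
      intro x hx
      have h1 : x.re % 2 = 0 := by
        rw [nv] at hx
        have h2 : (2 : ℤ) ∣ x.re ^ 2 := by
          have : x.re ^ 2 = 2 * (2 ^ k - x.im ^ 2) := by rw [pow_succ (2 : ℤ) k] at hx; linarith
          exact ⟨_, this⟩
        have := Int.prime_two.dvd_of_dvd_pow h2
        omega
      obtain ⟨c, hc⟩ : ∃ c, x.re = 2 * c := ⟨x.re / 2, by omega⟩
      have hx2 : x = sq * ⟨x.im, -c⟩ := by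
        ext
        · rw [Zsqrtd.re_mul, hc]; ring
        · rw [Zsqrtd.im_mul]; ring
      have h3 : (⟨x.im, -c⟩ : Zs).norm = (2 : ℤ) ^ k := by
        have h4 := congrArg Zsqrtd.norm hx2
        rw [Zsqrtd.norm_mul, hs, hx, pow_succ, mul_comm] at h4
        exact (mul_left_cancel₀ two_ne_zero h4).symm
      rcases ih _ h3 with h4 | h4
      · left
        rw [hx2, h4]; ring
      · right
        rw [hx2, h4]; ring
  have hnk : ((sq : Zs) ^ k).norm = (2 : ℤ) ^ k := by rw [norm_pow_zs, hs]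
  have := sum_pm (SN (2 ^ k)) 1 (fun _ => (sq : Zs) ^ k) ?_ ?_ ?_ f hf
  · rw [this, Finset.sum_range_one]
  · intro j hj
    apply norm_ne_zero
    rw [hnk]
    positivity
  · intro x
    rw [mem_SN']
    push_cast
    constructor
    · intro hx
      exact ⟨0, one_pos, form k x hx⟩
    · rintro ⟨j, hj, h1 | h1⟩
      · rw [h1, hnk]
      · rw [h1, Zsqrtd.norm_neg, hnk]
  · intro i j hi hj _
    omega

end Pool.Agent.TM32
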